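import Pool.Agent.X209.EQ.Top

/-!
# McKay bijections with congruent degrees and cyclic groups of automorphisms
-/

open Pool.Agent.X209.EQ
open Pool.Agent.X209.CC (IrrP)

namespace Pool.Agent.Results.MP_5ecade_al.Automorphisms

/-- `X` and `N_X(P)` have equally many irreducible characters of degree prime to `p` and congruent
to `± m`, for all `m` and all `G ≤ X ≤ E` with `X/G` cyclic -/
def Rel {p : ℕ} {E : Type} [Group E] {G : Subgroup E} (P : Sylow p G) : Prop :=
  ∀ X : Subgroup E, G ≤ X → (∃ e : E, X = G ⊔ Subgroup.zpowers e) →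
    ∀ m, num p X m = num p (X ⊓ NE (P : Subgroup G) : Subgroup E) m

/-- the permutation characters of `N_E(P)` on the characters of `G` and of `N_G(P)` of degree prime
to `p` and congruent to `± m` agree, for all `m` -/
def Perm {p : ℕ} {E : Type} [Group E] {G : Subgroup E} (P : Sylow p G) : Prop :=
  ∀ e ∈ NE (P : Subgroup G), ∀ m, cf p G.subtype e m = cf p (iN (P : Subgroup G)) e m

/-- there is a bijection `Irr_{p'}(G) → Irr_{p'}(N_G(P))` with congruent degrees up to sign which
commutes with the conjugations by the elements of `N_E(P)` -/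
def EquiBij {p : ℕ} {E : Type} [Group E] {G : Subgroup E} (P : Sylow p G) : Prop :=
  ∃ f : IrrP p G ≃ IrrP p (Subgroup.normalizer ((P : Subgroup G) : Set G)),
    CongDeg f ∧ EquiE (P : Subgroup G) f

/-- Let `p` be a prime. (1) For `G` normal in a finite group `E` and `P ∈ Syl_p(G)`: the numbers for
`X` and `N_X(P)` agree for all `G ≤ X ≤ E` with `X/G` cyclic if and only if the permutation
characters of `N_E(P)` on `Irr_{p'}(G)` and `Irr_{p'}(N_G(P))` (by the degree modulo `p` up to
sign) agree, and if `E/G` is cyclic, if and only if there is an `N_E(P)`-equivariant bijection with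
congruent degrees. (2) Q1 holds for all finite groups if and only if the permutation characters
always agree, and if and only if the equivariant bijections exist whenever `E/G` is cyclic. -/
theorem result (p : ℕ) [Fact p.Prime] :
    (∀ (E : Type) [Group E] [Finite E] (G : Subgroup E) [G.Normal] (P : Sylow p G),
      (Rel P ↔ Perm P) ∧
      ((∃ e : E, G ⊔ Subgroup.zpowers e = ⊤) → (Rel P ↔ EquiBij P))) ∧
    ((∀ (H : Type) [Group H] [Finite H] (R : Sylow p H),
        ∃ f : IrrP p H ≃ IrrP p (Subgroup.normalizer ((R : Subgroup H) : Set H)), CongDeg f) ↔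
      ∀ (E : Type) [Group E] [Finite E] (G : Subgroup E) [G.Normal] (P : Sylow p G), Perm P) ∧
    ((∀ (H : Type) [Group H] [Finite H] (R : Sylow p H),
        ∃ f : IrrP p H ≃ IrrP p (Subgroup.normalizer ((R : Subgroup H) : Set H)), CongDeg f) ↔
      ∀ (E : Type) [Group E] [Finite E] (G : Subgroup E) [G.Normal] (P : Sylow p G),
        (∃ e : E, G ⊔ Subgroup.zpowers e = ⊤) → EquiBij P) := by
  refine ⟨?_, global, ?_⟩
  · intro E _ _ G _ P
    refine ⟨local_iff P, fun hE => ?_⟩
    exact (local_iff P).trans (equi_iff hE (P : Subgroup G)).symm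
  · constructor
    · intro h E _ _ G _ P hE
      exact (equi_iff hE (P : Subgroup G)).mpr (global.mp h E G P)
    · intro h H _ _ R
      have htop : ∃ e : H, (⊤ : Subgroup H) ⊔ Subgroup.zpowers e = ⊤ := ⟨1, top_sup_eq _⟩
      have h1 := (equi_iff htop ((R.subtype le_top : Sylow p (⊤ : Subgroup H)) :
        Subgroup (⊤ : Subgroup H))).mp (h H ⊤ (R.subtype le_top) htop)
      rw [bij_iff]
      intro m
      exact num_of_top R m (h1 1 (Subgroup.one_mem _) m)

end Pool.Agent.Results.MP_5ecade_al.Automorphisms
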