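import Pool.Agent.X209.CC.Fin

/-!
# McKay bijections with congruent degrees and central characters
-/

open Pool.Agent.X209.CC

namespace Pool.Agent.Results.MP_5ecade_al.CentralCharacters

/-- There is a bijection from `Irr_{p'}(G)` to `Irr_{p'}(N_G(P))` with `χ(1) ≡ ± f(χ)(1)` modulo `p`
which commutes with the automorphisms in `S` and preserves the characters of `Z`. -/
def CongBij (p : ℕ) (S : Set (ℂ ≃+* ℂ)) {G : Type} [Group G] (P Z : Subgroup G) : Prop :=
  ∃ f : IrrP p G ≃ IrrP p (Subgroup.normalizer (P : Set G)),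
    (∀ χ, ∃ m n : ℕ, χ.1 1 = (m : ℂ) ∧ (f χ).1 1 = (n : ℂ) ∧ (m ≡ n [MOD p] ∨ p ∣ m + n)) ∧
    Equi S f ∧ PresCentral P Z f

/-- the class of the degree modulo `p` and up to sign -/
def lab (p : ℕ) (c : ℂ) : Set (ZMod p) :=
  {x | ∃ m : ℕ, c = (m : ℂ) ∧ (x = (m : ZMod p) ∨ x = -(m : ZMod p))}

theorem lab_nat (p m : ℕ) : lab p (m : ℂ) = {(m : ZMod p), -(m : ZMod p)} := by
  ext x
  constructor
  · rintro ⟨k, hk, h⟩
    have : m = k := by exact_mod_cast hk
    subst this
    exact h
  · intro h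
    exact ⟨m, rfl, h⟩

theorem lab_eq (p m n : ℕ) : lab p (n : ℂ) = lab p (m : ℂ) ↔ (m ≡ n [MOD p] ∨ p ∣ m + n) := by
  rw [lab_nat, lab_nat]
  have e1 : m ≡ n [MOD p] ↔ (m : ZMod p) = (n : ZMod p) := (ZMod.natCast_eq_natCast_iff m n p).symm
  have e2 : p ∣ m + n ↔ (m : ZMod p) = -(n : ZMod p) := by
    rw [← ZMod.natCast_eq_zero_iff, Nat.cast_add, add_eq_zero_iff_eq_neg]
  rw [e1, e2]
  constructor
  · intro h
    have h1 : (m : ZMod p) ∈ ({(m : ZMod p), -(m : ZMod p)} : Set (ZMod p)) := Or.inl rfl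
    rw [← h] at h1
    exact h1
  · rintro (h | h)
    · rw [h]
    · rw [h, neg_neg, Set.pair_comm]

theorem congBij_iff {p : ℕ} {S : Set (ℂ ≃+* ℂ)} {G : Type} [Group G] {P Z : Subgroup G} :
    CongBij p S P Z ↔ CorrZ p S (lab p) P Z := by
  refine exists_congr fun f => ?_
  constructor
  · rintro ⟨h0, h1, h2⟩
    refine ⟨h1, fun χ => ?_, h2⟩
    obtain ⟨m, n, hm, hn, h⟩ := h0 χ
    rw [hm, hn]
    exact (lab_eq p m n).mpr h
  · rintro ⟨h1, h0, h2⟩
    refine ⟨fun χ => ?_, h1, h2⟩
    obtain ⟨m, hm, _⟩ := χ.2.2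
    obtain ⟨n, hn, _⟩ := (f χ).2.2
    have h := h0 χ
    rw [hm, hn] at h
    exact ⟨m, n, hm, hn, (lab_eq p m n).mp h⟩

/-- (1) For a finite group `G`, `Z ≤ Z(G)`, `P ∈ Syl_p(G)` and a set `S` of automorphisms of `ℂ`
(for instance the empty set): there is a bijection `Irr_{p'}(G) → Irr_{p'}(N_G(P))` with congruent
degrees up to sign which commutes with `S` and preserves the characters of `Z` if and only if there
are bijections with congruent degrees up to sign and commuting with `S` for the groups `G/Y`,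
`Y ≤ Z`. (2) In particular, Q1 holds for all finite groups if and only if the bijections can always
be chosen so that they preserve the characters of the centre. -/
theorem result (p : ℕ) [Fact p.Prime] :
    (∀ (S : Set (ℂ ≃+* ℂ)) (G : Type) [Group G] [Finite G] (Z : Subgroup G),
      Z ≤ Subgroup.center G → ∀ P : Sylow p G,
        (CongBij p S (P : Subgroup G) Z ↔ ∀ Y : Subgroup G, Y ≤ Z → ∀ _ : Y.Normal,
          CongBij p S ((P : Subgroup G).map (QuotientGroup.mk' Y)) (⊥ : Subgroup (G ⧸ Y)))) ∧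
    ∀ S : Set (ℂ ≃+* ℂ),
      (∀ (G : Type) [Group G] [Finite G] (P : Sylow p G),
        CongBij p S (P : Subgroup G) (⊥ : Subgroup G)) ↔
      ∀ (G : Type) [Group G] [Finite G] (P : Sylow p G),
        CongBij p S (P : Subgroup G) (Subgroup.center G) := by
  constructor
  · intro S G _ _ Z hZ P
    simp only [congBij_iff]
    exact corrZ_main hZ P
  · intro S
    simp only [congBij_iff]
    exact corrZ_global

end Pool.Agent.Results.MP_5ecade_al.CentralCharacters
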