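import Pool.Agent.X27.Chr.Abel

/-!
# The conjecture of Isaacs and Navarro and its form with an error term

For a finite group `G` with Sylow `p`-subgroup `D` let `M_k(G)` be the number of the irreducible characters of `G` of degree
congruent to `k` or `-k` modulo `p` (`ck p k G`). A bijection as in the conjecture exists for `(G, D)` (`IN x`) if and
only if `M_k(G) = M_k(N_G(D))` for all `k ≢ 0`.

Theorem. Let `P` be a class of pairs `(G, D)` which is closed under direct products with cyclic groups of order prime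
to `p` (all pairs, or those with `G` solvable, or with a given `G / Z(G)`, ...). The conjecture holds for all pairs in `P`
if and only if `M_k(G) - M_k(N_G(D)) = o(|G|)` for the pairs in `P` and all `k ≢ 0` modulo `p`. (Trivially the
difference is at most `|G|`.)
-/

set_option autoImplicit false

open scoped Classical

noncomputable section

namespace Pool.Agent.Results.MP_5ecade_al.SavingImpliesEquality

open Pool.Agent.X27.Chr Pool.Agent.Helper884.IC

/-- The irreducible characters of degree prime to `p`. -/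
def IrrP (p : ℕ) (G : Type) [Group G] [Fintype G] : Type := {chi : G → ℂ // IsIrrChar chi ∧ ¬ p ∣ dg chi}

/-- The degree modulo `p`. -/
def dgm (p : ℕ) (G : Type) [Group G] [Fintype G] (chi : IrrP p G) : ZMod p := (dg chi.1 : ZMod p)

/-- There is a bijection which preserves the values up to sign. -/
def PmBij {p : ℕ} {X Y : Type} (d : X → ZMod p) (d' : Y → ZMod p) : Prop :=
  ∃ e : X ≃ Y, ∀ x, d x = d' (e x) ∨ d x = -d' (e x)

/-- There is a bijection of the characters of degree prime to `p` as in the conjecture. -/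
def IN {p : ℕ} (x : Syl p) : Prop := PmBij (dgm p x.G) (dgm p (Nm x.D))

/-- `M_k(G)`. -/
def ckG {p : ℕ} (k : ZMod p) (x : Syl p) : ℕ := ck p k x.G

/-- `M_k(N_G(D))`. -/
def ckN {p : ℕ} (k : ZMod p) (x : Syl p) : ℕ := ck p k (Nm x.D)

theorem fiber_bij {p : ℕ} {X Y : Type} [Finite X] [Finite Y] (d : X → ZMod p) (d' : Y → ZMod p)
    (hd : ∀ x, d x ≠ 0) (hd' : ∀ y, d' y ≠ 0) :
    PmBij d d' ↔
      ∀ k : ZMod p, k ≠ 0 → Nat.card {x // d x = k ∨ d x = -k} = Nat.card {y // d' y = k ∨ d' y = -k} := by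
  constructor
  · rintro ⟨e, he⟩ k _
    refine Nat.card_congr (e.subtypeEquiv fun x => ?_)
    rcases he x with h | h
    · rw [h]
    · rw [h]
      constructor
      · rintro (h1 | h1)
        · exact Or.inr (by rw [← h1, neg_neg])
        · exact Or.inl (neg_injective h1)
      · rintro (h1 | h1)
        · exact Or.inr (by rw [h1])
        · exact Or.inl (by rw [h1, neg_neg])
  · intro h
    let c : ZMod p → Set (ZMod p) := fun a => {a, -a}
    have hc : ∀ a b, c a = c b ↔ a = b ∨ a = -b := by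
      intro a b
      constructor
      · intro hab
        have : a ∈ c b := by rw [← hab]; exact Or.inl rfl
        exact this
      · rintro (rfl | rfl)
        · rfl
        · ext z
          change z = -b ∨ z = - -b ↔ z = b ∨ z = -b
          rw [neg_neg]
          exact or_comm
    have hs : ∀ s : Set (ZMod p), Nonempty ({x // c (d x) = s} ≃ {y // c (d' y) = s}) := by
      intro s
      by_cases hex : ∃ k : ZMod p, k ≠ 0 ∧ s = c k
      · obtain ⟨k, hk, rfl⟩ := hex
        simp only [hc]
        exact Finite.card_eq.1 (h k hk)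
      · have e1 : IsEmpty {x // c (d x) = s} := ⟨fun x => hex ⟨d x.1, hd _, x.2.symm⟩⟩
        have e2 : IsEmpty {y // c (d' y) = s} := ⟨fun y => hex ⟨d' y.1, hd' _, y.2.symm⟩⟩
        exact ⟨Equiv.equivOfIsEmpty _ _⟩
    let E : X ≃ Y := (Equiv.sigmaFiberEquiv fun x => c (d x)).symm.trans
      ((Equiv.sigmaCongrRight fun s => (hs s).some).trans (Equiv.sigmaFiberEquiv fun y => c (d' y)))
    refine ⟨E, fun x => ?_⟩
    rw [← hc]
    have : c (d' (E x)) = c (d x) := ((hs (c (d x))).some ⟨x, rfl⟩).2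
    exact this.symm

theorem finite_irr (G : Type) [Group G] [Fintype G] (q : (G → ℂ) → Prop) :
    Finite {chi : G → ℂ // IsIrrChar chi ∧ q chi} :=
  (irr_finite (G := G)).subset (fun _ h => h.1) |>.to_subtype

theorem ck_eq {p : ℕ} (k : ZMod p) (hk : k ≠ 0) (G : Type) [Group G] [Fintype G] :
    ck p k G = Nat.card {x : IrrP p G // dgm p G x = k ∨ dgm p G x = -k} := by
  unfold ck
  refine Nat.card_congr ?_
  exact
    { toFun := fun chi => ⟨⟨chi.1, chi.2.1, fun hd => by
          have h0 : (dg chi.1 : ZMod p) = 0 := (ZMod.natCast_eq_zero_iff _ _).2 hd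
          rcases chi.2.2 with h | h
          · exact hk (by rw [← h, h0])
          · exact hk (by rw [← neg_neg k, ← h, h0, neg_zero])⟩, chi.2.2⟩
      invFun := fun x => ⟨x.1.1, x.1.2.1, x.2⟩
      left_inv := fun _ => rfl
      right_inv := fun _ => rfl }

theorem in_iff {p : ℕ} (x : Syl p) : IN x ↔ ∀ k : ZMod p, k ≠ 0 → ckG k x = ckN k x := by
  have f1 : Finite (IrrP p x.G) := finite_irr x.G (fun chi => ¬ p ∣ dg chi)
  have f2 : Finite (IrrP p (Nm x.D)) := finite_irr (Nm x.D) (fun chi => ¬ p ∣ dg chi)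
  have h := fiber_bij (p := p) (dgm p x.G) (dgm p (Nm x.D))
    (fun chi h0 => chi.2.2 ((ZMod.natCast_eq_zero_iff _ _).1 h0))
    (fun psi h0 => psi.2.2 ((ZMod.natCast_eq_zero_iff _ _).1 h0))
  unfold IN
  rw [h]
  refine forall₂_congr fun k hk => ?_
  unfold ckG ckN
  rw [ck_eq k hk, ck_eq k hk]

/-- The class is closed under direct products with cyclic groups of order prime to `p`. -/
def CycClosed {p : ℕ} [Fact p.Prime] (P : Syl p → Prop) : Prop :=
  ∀ x, P x → ∀ (n : ℕ) [NeZero n] (hn : ¬ p ∣ n), P (x.cyc n hn)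

/-- `M_k(G) - M_k(N_G(D)) = o(|G|)` on the class `P`. -/
def Small {p : ℕ} (P : Syl p → Prop) : Prop :=
  ∀ ε : ℝ, 0 < ε → ∃ N : ℕ, ∀ x, P x → N ≤ Nat.card x.G → ∀ k : ZMod p, k ≠ 0 →
    |(ckG k x : ℝ) - ckN k x| ≤ ε * Nat.card x.G

theorem result (p : ℕ) (hp : Fact p.Prime) (P : Syl p → Prop) (hP : CycClosed P) :
    (∀ x, P x → IN x) ↔ Small P := by
  constructor
  · intro h ε hε
    refine ⟨0, fun x hx _ k hk => ?_⟩
    rw [(in_iff x).1 (h x hx) k hk, sub_self, abs_zero]
    positivity
  · intro h x hx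
    rw [in_iff]
    intro k hk
    by_contra hne
    have hG : (0 : ℝ) < Nat.card x.G := by exact_mod_cast Nat.card_pos
    obtain ⟨N, hN⟩ := h (1 / (2 * Nat.card x.G)) (by positivity)
    have hn : ¬ p ∣ N * p + 1 := by
      intro hd
      have := (Nat.dvd_add_right (dvd_mul_left p N)).1 hd
      exact hp.out.one_lt.ne' (Nat.dvd_one.1 this)
    have hnz : NeZero (N * p + 1) := ⟨Nat.succ_ne_zero _⟩
    obtain ⟨h1, h2⟩ : ckG k (x.cyc (N * p + 1) hn) = ckG k x * (N * p + 1) ∧
        ckN k (x.cyc (N * p + 1) hn) = ckN k x * (N * p + 1) := ck_cyc x (N * p + 1) hn k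
    have h3 := hN (x.cyc (N * p + 1) hn) (hP x hx _ hn) ?_ k hk
    · rw [h1, h2] at h3
      have h4 : Nat.card (x.cyc (N * p + 1) hn).G = Nat.card x.G * (N * p + 1) := by
        change Nat.card (x.G × Multiplicative (ZMod (N * p + 1))) = _
        rw [Nat.card_prod, card_mz]
      rw [h4] at h3
      have h5 : (1 : ℝ) ≤ |(ckG k x : ℝ) - ckN k x| := by
        have h6 : ((ckG k x : ℤ) - ckN k x) ≠ 0 := by
          intro h0
          apply hne
          omega
        have h7 := Int.one_le_abs h6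
        exact_mod_cast h7
      have hpos : (0 : ℝ) < ((N * p + 1 : ℕ) : ℝ) := by exact_mod_cast Nat.succ_pos _
      rw [Nat.cast_mul, Nat.cast_mul, ← sub_mul, abs_mul, abs_of_pos hpos, Nat.cast_mul] at h3
      have h8 : 1 / (2 * (Nat.card x.G : ℝ)) * ((Nat.card x.G : ℝ) * ((N * p + 1 : ℕ) : ℝ)) =
          ((N * p + 1 : ℕ) : ℝ) / 2 := by
        field_simp
      rw [h8] at h3
      nlinarith
    · change N ≤ Nat.card (x.G × Multiplicative (ZMod (N * p + 1)))
      rw [Nat.card_prod, card_mz]
      calc N ≤ N * p := Nat.le_mul_of_pos_right _ hp.out.pos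
        _ ≤ N * p + 1 := Nat.le_succ _
        _ ≤ Nat.card x.G * (N * p + 1) := Nat.le_mul_of_pos_left _ Nat.card_pos

end Pool.Agent.Results.MP_5ecade_al.SavingImpliesEquality
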